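import Pool.Agent.Helper52.NF.St2

set_option autoImplicit false

namespace Pool.Agent.Helper44.NF

open Pool.Agent.Helper52.NF Finset

section
open Classical

variable {A B : Type} [Fintype B] (I : A → B → Prop) (T : Finset A)

omit [Fintype B] in
private theorem P2_card {p : Finset A} (h : p ∈ P2 I T) : p.card = 2 := by
  unfold P2 PP at h
  rw [Finset.mem_filter, Finset.mem_filter, Finset.mem_powersetCard] at h
  exact h.1.1.2

omit [Fintype B] in
private theorem P2_lt {p : Finset A} (h : p ∈ P2 I T) (z : B) (hz : p ⊆ Dz I T z) :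
    (Dz I T z).card < 4 := by
  unfold P2 PP at h
  rw [Finset.mem_filter, Finset.mem_filter] at h
  exact h.1.2.2 z hz

omit [Fintype B] in
private theorem P2_ne {p : Finset A} (h : p ∈ P2 I T) (z : B) (hz : p ⊆ Dz I T z) :
    (Dz I T z).card ≠ 3 := by
  unfold P2 at h
  rw [Finset.mem_filter] at h
  exact h.2 z hz

private theorem wf_two {f : A} {z : B} (h : (Dz I T z).card = 2) : wf I T f z = 2 := by
  unfold wf
  rw [if_neg (by omega), if_neg (by omega)]

private theorem wf_four {f : A} {z : B} (h : 4 ≤ (Dz I T z).card) : wf I T f z = 3 := by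
  unfold wf
  rw [if_neg (by omega), if_pos h]

private theorem lemA (hS : StLFS) (U2 : Finset B) (hU : ∀ z ∈ U2, Dz I T z ∈ P2 I T)
    (z : B) (hz : z ∈ U2 ∪ V3 I T ∪ V4 I T) (S : Finset A) (hSz : S ⊆ Dz I T z)
    (hev : Even S.card) (hpos : 2 ≤ S.card) : 4 ≤ ∑ f ∈ S, wf I T f z := by
  rw [Finset.mem_union, Finset.mem_union] at hz
  rcases hz with (hz | hz) | hz
  · have h2 := P2_card I T (hU z hz)
    rw [Finset.sum_congr rfl (fun f _ => wf_two I T h2), Finset.sum_const, smul_eq_mul]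
    omega
  · have h3 : (Dz I T z).card = 3 := by
      unfold V3 at hz
      exact (Finset.mem_filter.mp hz).2
    have hc : S.card ≤ 3 := h3 ▸ Finset.card_le_card hSz
    have hc2 : S.card = 2 := by
      obtain ⟨r, hr⟩ := hev
      omega
    have := (hS A B I T z h3).2 S (Finset.mem_powersetCard.mpr ⟨hSz, hc2⟩)
    omega
  · have h4 : 4 ≤ (Dz I T z).card := by
      unfold V4 at hz
      exact (Finset.mem_filter.mp hz).2
    rw [Finset.sum_congr rfl (fun f _ => wf_four I T h4), Finset.sum_const, smul_eq_mul]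
    omega

private theorem lemC (U2 : Finset B) (hU : ∀ z ∈ U2, Dz I T z ∈ P2 I T)
    (hinj : ∀ z ∈ U2, ∀ z' ∈ U2, Dz I T z = Dz I T z' → z = z')
    (z z' : B) (hzz : z ≠ z') (hz : z ∈ U2 ∪ V3 I T ∪ V4 I T)
    (hz' : z' ∈ U2 ∪ V3 I T ∪ V4 I T) (S : Finset A) (hSz : S ⊆ Dz I T z)
    (hSz' : S ⊆ Dz I T z') (hpos : 2 ≤ S.card) : z ∈ V3 I T ∪ V4 I T := by
  rw [Finset.mem_union, Finset.mem_union] at hz
  rcases hz with (hz | hz) | hz
  · exfalso
    have h2 := P2_card I T (hU z hz)
    have hSe : S = Dz I T z := Finset.eq_of_subset_of_card_le hSz (by omega)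
    have hsub : Dz I T z ⊆ Dz I T z' := hSe ▸ hSz'
    have h4 := P2_lt I T (hU z hz) z' hsub
    have h3 := P2_ne I T (hU z hz) z' hsub
    have hle := Finset.card_le_card hsub
    have he : Dz I T z = Dz I T z' := Finset.eq_of_subset_of_card_le hsub (by omega)
    rw [Finset.mem_union, Finset.mem_union] at hz'
    rcases hz' with (hz' | hz') | hz'
    · exact hzz (hinj z hz z' hz' he)
    · unfold V3 at hz'
      exact h3 (Finset.mem_filter.mp hz').2
    · unfold V4 at hz'
      have := (Finset.mem_filter.mp hz').2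
      omega
  · exact Finset.mem_union_left _ hz
  · exact Finset.mem_union_right _ hz

private theorem three_le {z : B} (hz : z ∈ V3 I T ∪ V4 I T) : 3 ≤ (Dz I T z).card := by
  rw [Finset.mem_union] at hz
  rcases hz with hz | hz
  · unfold V3 at hz
    have := (Finset.mem_filter.mp hz).2
    omega
  · unfold V4 at hz
    have := (Finset.mem_filter.mp hz).2
    omega

private theorem lemB (hS : StLFS) (U2 : Finset B) (hU : ∀ z ∈ U2, Dz I T z ∈ P2 I T)
    (hinj : ∀ z ∈ U2, ∀ z' ∈ U2, Dz I T z = Dz I T z' → z = z')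
    (z z' : B) (hzz : z ≠ z') (hz : z ∈ U2 ∪ V3 I T ∪ V4 I T)
    (hz' : z' ∈ U2 ∪ V3 I T ∪ V4 I T) (S : Finset A) (hSz : S ⊆ Dz I T z)
    (hSz' : S ⊆ Dz I T z') (hev : Even S.card) (hpos : 2 ≤ S.card) :
    6 ≤ ∑ f ∈ S, wf I T f z := by
  have h1 := lemC I T U2 hU hinj z z' hzz hz hz' S hSz hSz' hpos
  have h1' := lemC I T U2 hU hinj z' z hzz.symm hz' hz S hSz' hSz hpos
  have h3z := three_le I T h1
  have h3z' := three_le I T h1'
  rw [Finset.mem_union] at h1
  rcases h1 with h | h
  · have h3 : (Dz I T z).card = 3 := by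
      unfold V3 at h
      exact (Finset.mem_filter.mp h).2
    have hc : S.card ≤ 3 := h3 ▸ Finset.card_le_card hSz
    have hc2 : S.card = 2 := by
      obtain ⟨r, hr⟩ := hev
      omega
    have hsum := (hS A B I T z h3).2 S (Finset.mem_powersetCard.mpr ⟨hSz, hc2⟩)
    have hsh : sh I T S = 1 := by
      unfold sh
      rw [if_pos]
      have hsub : ({z, z'} : Finset B) ⊆
          Finset.univ.filter (fun z : B => 3 ≤ (Dz I T z).card ∧ S ⊆ Dz I T z) := by
        intro w hw
        rw [Finset.mem_insert, Finset.mem_singleton] at hw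
        rw [Finset.mem_filter]
        rcases hw with rfl | rfl
        · exact ⟨Finset.mem_univ _, h3z, hSz⟩
        · exact ⟨Finset.mem_univ _, h3z', hSz'⟩
      have := Finset.card_le_card hsub
      rwa [Finset.card_pair hzz] at this
    omega
  · have h4 : 4 ≤ (Dz I T z).card := by
      unfold V4 at h
      exact (Finset.mem_filter.mp h).2
    rw [Finset.sum_congr rfl (fun f _ => wf_four I T h4), Finset.sum_const, smul_eq_mul]
    omega

theorem hLFW (hS : StLFS) : StLFW := by
  intro A B _ I T U2 hU hinj C hC hne hrow hcol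
  -- the members at a node
  let S : B → Finset A := fun z => (C.filter (fun p => p.2 = z)).image Prod.fst
  have hSmem : ∀ z f, f ∈ S z ↔ (f, z) ∈ C := by
    intro z f
    simp only [S, Finset.mem_image, Finset.mem_filter]
    constructor
    · rintro ⟨p, ⟨hp, hpz⟩, hpf⟩
      have : p = (f, z) := Prod.ext hpf hpz
      rwa [← this]
    · intro h
      exact ⟨(f, z), ⟨h, rfl⟩, rfl⟩
  have hinjfst : ∀ z, Set.InjOn (Prod.fst : A × B → A)
      ((C.filter (fun p => p.2 = z) : Finset (A × B)) : Set (A × B)) := by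
    intro z p hp q hq hpq
    rw [Finset.mem_coe, Finset.mem_filter] at hp hq
    exact Prod.ext hpq (hp.2.trans hq.2.symm)
  have hScard : ∀ z, (S z).card = (C.filter (fun p => p.2 = z)).card := by
    intro z
    exact Finset.card_image_of_injOn (hinjfst z)
  have hSsum : ∀ z, ∑ p ∈ C.filter (fun p => p.2 = z), wf I T p.1 p.2 =
      ∑ f ∈ S z, wf I T f z := by
    intro z
    have h1 : ∑ f ∈ S z, wf I T f z =
        ∑ p ∈ C.filter (fun p => p.2 = z), wf I T p.1 z :=
      Finset.sum_image (hinjfst z)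
    rw [h1]
    refine Finset.sum_congr rfl (fun p hp => ?_)
    rw [(Finset.mem_filter.mp hp).2]
  let Z : Finset B := C.image Prod.snd
  have hZmem : ∀ z, z ∈ Z ↔ ∃ f, (f, z) ∈ C := by
    intro z
    simp only [Z, Finset.mem_image]
    constructor
    · rintro ⟨p, hp, hpz⟩
      refine ⟨p.1, ?_⟩
      have : p = (p.1, z) := Prod.ext rfl hpz
      rwa [← this]
    · rintro ⟨f, hf⟩
      exact ⟨(f, z), hf, rfl⟩
  have htot : ∑ p ∈ C, wf I T p.1 p.2 = ∑ z ∈ Z, ∑ f ∈ S z, wf I T f z := by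
    rw [← Finset.sum_fiberwise_of_maps_to (s := C) (t := Z) (g := Prod.snd)
      (fun p hp => Finset.mem_image_of_mem _ hp)]
    exact Finset.sum_congr rfl (fun z _ => hSsum z)
  have hSpos : ∀ z ∈ Z, 2 ≤ (S z).card := by
    intro z hz
    obtain ⟨f, hf⟩ := (hZmem z).mp hz
    have h1 : 0 < (S z).card := Finset.card_pos.mpr ⟨f, (hSmem z f).mpr hf⟩
    have h2 : Even (S z).card := by rw [hScard]; exact hcol z
    obtain ⟨r, hr⟩ := h2
    omega
  have hSev : ∀ z, Even (S z).card := by
    intro z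
    rw [hScard]; exact hcol z
  have hSsub : ∀ z, S z ⊆ Dz I T z := by
    intro z f hf
    exact (hC _ ((hSmem z f).mp hf)).2
  have hZU : ∀ z ∈ Z, z ∈ U2 ∪ V3 I T ∪ V4 I T := by
    intro z hz
    obtain ⟨f, hf⟩ := (hZmem z).mp hz
    exact (hC _ hf).1
  have hfour : ∀ z ∈ Z, 4 ≤ ∑ f ∈ S z, wf I T f z := fun z hz =>
    lemA I T hS U2 hU z (hZU z hz) (S z) (hSsub z) (hSev z) (hSpos z hz)
  -- a second node for every member
  have hsec : ∀ f z, (f, z) ∈ C → ∃ z', z' ≠ z ∧ (f, z') ∈ C := by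
    intro f z hfz
    have hev := hrow f
    have hmem : (f, z) ∈ C.filter (fun p => p.1 = f) := Finset.mem_filter.mpr ⟨hfz, rfl⟩
    have h1 : 0 < (C.filter (fun p => p.1 = f)).card := Finset.card_pos.mpr ⟨_, hmem⟩
    have h2 : 1 < (C.filter (fun p => p.1 = f)).card := by
      obtain ⟨r, hr⟩ := hev
      omega
    obtain ⟨q, hq, hqne⟩ := Finset.exists_mem_ne h2 (f, z)
    rw [Finset.mem_filter] at hq
    refine ⟨q.2, ?_, ?_⟩
    · intro h
      exact hqne (Prod.ext hq.2 h)
    · have : q = (f, q.2) := Prod.ext hq.2 rfl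
      rw [← this]
      exact hq.1
  have hZ2 : 2 ≤ Z.card := by
    obtain ⟨p, hp⟩ := hne
    obtain ⟨z', hz', hpz'⟩ := hsec p.1 p.2 hp
    have h1 : p.2 ∈ Z := (hZmem _).mpr ⟨p.1, hp⟩
    have h2 : z' ∈ Z := (hZmem _).mpr ⟨p.1, hpz'⟩
    exact Finset.one_lt_card.mpr ⟨z', h2, p.2, h1, hz'⟩
  rw [htot]
  rcases Nat.lt_or_ge 2 Z.card with h3 | h3
  · calc 12 ≤ Z.card * 4 := by omega
      _ = ∑ z ∈ Z, 4 := by rw [Finset.sum_const, smul_eq_mul]
      _ ≤ ∑ z ∈ Z, ∑ f ∈ S z, wf I T f z := Finset.sum_le_sum hfour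
  · have hZ : Z.card = 2 := le_antisymm h3 hZ2
    obtain ⟨z, z', hzz, hZe⟩ := Finset.card_eq_two.mp hZ
    have hzZ : z ∈ Z := by rw [hZe]; exact Finset.mem_insert_self _ _
    have hzZ' : z' ∈ Z := by
      rw [hZe]; exact Finset.mem_insert_of_mem (Finset.mem_singleton_self _)
    have hSS : S z = S z' := by
      ext f
      rw [hSmem, hSmem]
      constructor
      · intro h
        obtain ⟨w, hw, hfw⟩ := hsec f z h
        have : w ∈ Z := (hZmem w).mpr ⟨f, hfw⟩
        rw [hZe, Finset.mem_insert, Finset.mem_singleton] at this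
        rcases this with h' | h'
        · exact absurd h' hw
        · rwa [← h']
      · intro h
        obtain ⟨w, hw, hfw⟩ := hsec f z' h
        have : w ∈ Z := (hZmem w).mpr ⟨f, hfw⟩
        rw [hZe, Finset.mem_insert, Finset.mem_singleton] at this
        rcases this with h' | h'
        · rwa [← h']
        · exact absurd h' hw
    rw [hZe, Finset.sum_pair hzz]
    have e1 := lemB I T hS U2 hU hinj z z' hzz (hZU z hzZ) (hZU z' hzZ') (S z) (hSsub z)
      (hSS ▸ hSsub z') (hSev z) (hSpos z hzZ)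
    have e2 := lemB I T hS U2 hU hinj z' z hzz.symm (hZU z' hzZ') (hZU z hzZ) (S z') (hSsub z')
      (hSS ▸ hSsub z) (hSev z') (hSpos z' hzZ')
    omega

end

end Pool.Agent.Helper44.NF
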